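import Mathlib

set_option autoImplicit false

namespace Pool.Agent.Results.MP_0cb83c_co.Counter

open MvPolynomial Pointwise

variable {K : Type} [Field K] {N : ℕ}

/-- Independent sets of the algebraic matroid `M(V)`: `I(V) ∩ K[E] = 0`. -/
def Indep (V : Set (Fin N → K)) (E : Finset (Fin N)) : Prop :=
  ∀ f ∈ vanishingIdeal K V, f ∈ supported K (E : Set (Fin N)) → f = 0

/-- The secant variety: Zariski closure of `{x + y : x, y ∈ V}`. -/
def sec (V : Set (Fin N → K)) : Set (Fin N → K) := zeroLocus K (vanishingIdeal K (V + V))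

/-- Dimension: Krull dimension of the coordinate ring. -/
noncomputable def dim (V : Set (Fin N → K)) : WithBot ℕ∞ :=
  ringKrullDim (MvPolynomial (Fin N) K ⧸ vanishingIdeal K V)

lemma van_zero (V : Set (Fin N → K)) :
    vanishingIdeal K (zeroLocus K (vanishingIdeal K V)) = vanishingIdeal K V :=
  zeroLocus_vanishingIdeal_galoisConnection.u_l_u_eq_u V

lemma indep_of_proj [Infinite K] {V : Set (Fin N → K)} {E : Finset (Fin N)}
    (h : ∀ y : Fin N → K, ∃ x ∈ V, ∀ e ∈ E, x e = y e) : Indep V E := fun f hf hE => by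
  refine MvPolynomial.funext fun y => ?_
  obtain ⟨x, hx, hxy⟩ := h y
  rw [map_zero, ← hf x hx]
  exact hom_congr_vars (f₂ := (aeval x : MvPolynomial (Fin N) K →ₐ[K] K).toRingHom)
    (by ext; simp) (fun i hi _ => by simpa using (hxy i (mem_supported.1 hE hi)).symm) rfl

def par {A : Type} [CommRing A] (w : Fin 4 → A) (i : Fin 8) : A :=
  if i.val < 5 then (w 0 + i.val * w 1) ^ 3 else (w 2 + i.val * w 3) ^ 3

def lin {A : Type} [CommRing A] (a : Fin 8 → A) (i : Fin 8) : A :=
  if i.val < 5 then a 0 + 3 * i.val * a 1 + 3 * i.val ^ 2 * a 2 + i.val ^ 3 * a 3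
  else a 4 + 3 * i.val * a 5 + 3 * i.val ^ 2 * a 6 + i.val ^ 3 * a 7

lemma map_par {A B : Type} [CommRing A] [CommRing B] [Algebra K A] [Algebra K B] (φ : A →ₐ[K] B)
    (w : Fin 4 → A) (f : MvPolynomial (Fin 8) K) :
    φ (aeval (par w) f) = aeval (par (φ ∘ w)) f := by
  rw [comp_aeval_apply]
  congr 2
  funext i
  unfold par
  split_ifs <;> simp

variable (K) in
def Y : Set (Fin 8 → K) := Set.range par

lemma van_Y [Infinite K] : vanishingIdeal K (Y K) =
    RingHom.ker (aeval (par X) : MvPolynomial (Fin 8) K →ₐ[K] MvPolynomial (Fin 4) K) := by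
  have h : ∀ (w : Fin 4 → K) f, aeval w (aeval (par X) f : MvPolynomial (Fin 4) K) =
      aeval (par w) f := fun w f => by
    rw [map_par]
    congr 3
    funext i
    simp
  ext f
  refine ⟨fun hf => MvPolynomial.funext fun w => ?_, ?_⟩
  · exact ((h w f).trans (hf _ ⟨w, rfl⟩)).trans (map_zero _).symm
  · rintro hf _ ⟨w, rfl⟩
    rw [← h, RingHom.mem_ker.1 hf, map_zero]

lemma homog [Infinite K] : ∀ f ∈ vanishingIdeal K (Y K), ∀ d,
    homogeneousComponent d f ∈ vanishingIdeal K (Y K) := by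
  rw [van_Y]
  intro f hf d
  have h : ∀ e, (aeval (par X) (homogeneousComponent e f) :
      MvPolynomial (Fin 4) K) ∈ homogeneousSubmodule (Fin 4) K (3 * e) := fun e =>
    (homogeneousComponent_isHomogeneous e f).aeval _ fun i => by
      have h1 : ∀ a b : Fin 4, IsHomogeneous ((X a + (i.val : MvPolynomial (Fin 4) K) * X b) ^ 3)
          3 := fun a b => by
        have h2 := (isHomogeneous_C (Fin 4) (i.val : K)).mul (isHomogeneous_X K b)
        rw [map_natCast] at h2
        exact ((isHomogeneous_X K a).add h2).pow 3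
      unfold par
      split_ifs
      exacts [h1 0 1, h1 2 3]
  have h2 := congrArg (homogeneousComponent (3 * d)) (RingHom.mem_ker.1 hf)
  rw [← sum_homogeneousComponent f, map_sum, map_sum, map_zero,
    Finset.sum_eq_single d (fun e _ he => by
      rw [homogeneousComponent_of_mem (h e), if_neg (by omega)]) (fun hd => by
      rw [homogeneousComponent_eq_zero d f (by simpa using hd), map_zero, map_zero]),
    homogeneousComponent_of_mem (h d), if_pos rfl] at h2
  exact h2

lemma four_le [CharZero K] : 4 ≤ dim (Y K) := by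
  let m : Fin 5 → Fin 4 → MvPolynomial (Fin 4) K := fun k i => if i.val + k < 4 then X i else 0
  let P : Fin 5 → Ideal (MvPolynomial (Fin 8) K) := fun k => RingHom.ker
    (aeval (par (m k)) : MvPolynomial (Fin 8) K →ₐ[K] MvPolynomial (Fin 4) K)
  have hle : ∀ (w : Fin 4 → MvPolynomial (Fin 4) K) (k : Fin 5), (aeval (m k)) ∘ w = m k →
      RingHom.ker (aeval (par w) : MvPolynomial (Fin 8) K →ₐ[K] MvPolynomial (Fin 4) K) ≤ P k :=
    fun w k h f hf => by
      rw [RingHom.mem_ker, ← h, ← map_par, RingHom.mem_ker.1 hf, map_zero]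
  rw [dim, ringKrullDim_quotient, van_Y]
  refine Order.LTSeries.length_le_krullDim ⟨4, fun k => ⟨⟨P k, RingHom.ker_isPrime _⟩,
    hle X k (by funext i; simp)⟩, fun k => ?_⟩
  refine SetLike.lt_iff_le_and_exists.2 ⟨hle _ _ ?_,
    (![X 6 - X 5, X 5, X 1 - X 0, X 0] : Fin 4 → MvPolynomial (Fin 8) K) k, ?_, fun h => ?_⟩
  · funext i
    fin_cases k <;> fin_cases i <;> simp [m]
  · fin_cases k <;> simp [P, m, par]
  · have := congrArg (aeval (fun _ : Fin 4 => (1 : K))) (RingHom.mem_ker.1 h)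
    fin_cases k <;> simp [m, par] at this <;> norm_num at this

lemma two [IsAlgClosed K] {c d : K} (h : c ≠ d) (y z : K) :
    ∃ s t, (s + c * t) ^ 3 = y ∧ (s + d * t) ^ 3 = z := by
  obtain ⟨p, rfl⟩ := IsAlgClosed.exists_pow_nat_eq y (n := 3) (by norm_num)
  obtain ⟨q, rfl⟩ := IsAlgClosed.exists_pow_nat_eq z (n := 3) (by norm_num)
  have := sub_ne_zero.2 h
  refine ⟨p - c * ((p - q) / (c - d)), (p - q) / (c - d), by ring, ?_⟩
  congr 1
  field_simp
  ring

def Small (E : Finset (Fin 8)) : Prop :=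
  (E.filter (·.val < 5)).card ≤ 2 ∧ (E.filter (¬ ·.val < 5)).card ≤ 2

instance : DecidablePred Small := fun _ => inferInstanceAs (Decidable (_ ∧ _))

lemma indep_Y [IsAlgClosed K] [CharZero K] (E : Finset (Fin 8)) : Indep (Y K) E ↔ Small E := by
  have hc : ∀ {i j : Fin 8}, i ≠ j → (i.val : K) ≠ j.val := fun h h' =>
    h (Fin.ext (by exact_mod_cast h'))
  constructor
  · intro h
    have key : ∀ i j k : Fin 8, i ∈ E → j ∈ E → k ∈ E → i ≠ j → i ≠ k → j ≠ k →
        (i.val < 5 ↔ j.val < 5) → (i.val < 5 ↔ k.val < 5) → False := by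
      intro i j k hi hj hk hij hik hjk h1 h2
      have hX : ∀ e ∈ E, ∀ c : K, c • X e ∈ supported K (E : Set (Fin 8)) := fun e he c =>
        Subalgebra.smul_mem _ (X_mem_supported.2 he) c
      have h3 := h ((((j.val : K) - k.val) ^ 3 • X i + ((k.val : K) - i.val) ^ 3 • X j +
        ((i.val : K) - j.val) ^ 3 • X k) ^ 3 - (27 : K) • (((j.val : K) - k.val) ^ 3 • X i *
        ((k.val : K) - i.val) ^ 3 • X j * ((i.val : K) - j.val) ^ 3 • X k)) (by
          rintro _ ⟨w, rfl⟩
          by_cases h5 : i.val < 5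
          · simp [par, h5, h1.1 h5, h2.1 h5]
            ring
          · simp [par, h5, mt h1.2 h5, mt h2.2 h5]
            ring)
        (sub_mem (pow_mem (add_mem (add_mem (hX _ hi _) (hX _ hj _)) (hX _ hk _)) _)
          (Subalgebra.smul_mem _ (mul_mem (mul_mem (hX _ hi _) (hX _ hj _)) (hX _ hk _)) _))
      have h4 := congrArg (aeval (Pi.single i 1 : Fin 8 → K)) h3
      simp [hij.symm, hik.symm, sub_eq_zero, hc hjk] at h4
    constructor <;> by_contra hcon <;>
      obtain ⟨i, hi, j, hj, k, hk, h1, h2, h3⟩ := Finset.two_lt_card.1 (not_le.1 hcon) <;>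
      rw [Finset.mem_filter] at hi hj hk <;>
      exact key i j k hi.1 hj.1 hk.1 h1 h2 h3 (by tauto) (by tauto)
  · rintro ⟨h1, h2⟩
    have key : ∀ S : Finset (Fin 8), S.card ≤ 2 → ∃ i j, i ≠ j ∧ ∀ e ∈ S, e = i ∨ e = j := by
      decide +kernel
    obtain ⟨i, j, hij, h3⟩ := key _ h1
    obtain ⟨k, l, hkl, h4⟩ := key _ h2
    refine indep_of_proj fun y => ?_
    obtain ⟨s, t, h5, h6⟩ := two (hc hij) (y i) (y j)
    obtain ⟨u, v, h7, h8⟩ := two (hc hkl) (y k) (y l)
    refine ⟨_, ⟨![s, t, u, v], rfl⟩, fun e he => ?_⟩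
    by_cases h : e.val < 5
    · rcases h3 e (by simp [he, h]) with rfl | rfl <;> simp [par, *]
    · rcases h4 e (Finset.mem_filter.2 ⟨he, h⟩) with rfl | rfl <;> simp [par, *]

lemma prony [IsAlgClosed K] [CharZero K] (a b c d : K) (h : (a * c - b ^ 2) *
    ((a * d - b * c) ^ 2 - 4 * (a * c - b ^ 2) * (b * d - c ^ 2)) ≠ 0) :
    ∃ s t s' t' : K, ∀ i : K, (s + i * t) ^ 3 + (s' + i * t') ^ 3 =
      a + 3 * i * b + 3 * i ^ 2 * c + i ^ 3 * d := by
  obtain ⟨h1, h2⟩ := mul_ne_zero_iff.1 h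
  obtain ⟨r, hr⟩ := IsAlgClosed.exists_pow_nat_eq
    ((a * d - b * c) ^ 2 - 4 * (a * c - b ^ 2) * (b * d - c ^ 2)) (n := 2) (by norm_num)
  have hr0 : r ≠ 0 := by
    rintro rfl
    exact h2 (by rw [← hr]; simp)
  set x := (a * d - b * c + r) / (2 * (a * c - b ^ 2)) with hx
  set y := (a * d - b * c - r) / (2 * (a * c - b ^ 2)) with hy
  have e1 : (a * c - b ^ 2) * (x + y) = a * d - b * c := by
    rw [hx, hy]; field_simp; ring
  have e2 : (a * c - b ^ 2) * (x * y) = b * d - c ^ 2 := by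
    rw [hx, hy]; field_simp; linear_combination -hr
  have e3 : x - y ≠ 0 := by
    have : x - y = r / (a * c - b ^ 2) := by rw [hx, hy]; field_simp; ring
    rw [this]
    exact div_ne_zero hr0 h1
  clear_value x y
  have e4 : c = (x + y) * b - x * y * a :=
    mul_left_cancel₀ h1 (by linear_combination -b * e1 + a * e2)
  have e5 : d = (x + y) * c - x * y * b :=
    mul_left_cancel₀ h1 (by linear_combination -c * e1 + b * e2)
  obtain ⟨s, hs⟩ := IsAlgClosed.exists_pow_nat_eq ((b - a * y) / (x - y)) (n := 3) (by norm_num)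
  obtain ⟨s', hs'⟩ := IsAlgClosed.exists_pow_nat_eq ((a * x - b) / (x - y)) (n := 3) (by norm_num)
  refine ⟨s, x * s, s', y * s', fun i => ?_⟩
  rw [show (s + i * (x * s)) ^ 3 + (s' + i * (y * s')) ^ 3 =
    s ^ 3 * (1 + i * x) ^ 3 + s' ^ 3 * (1 + i * y) ^ 3 by ring, hs, hs', e5, e4]
  field_simp
  ring

variable (K) in
def H : Set (Fin 8 → K) := {x | x 0 - 4 * x 1 + 6 * x 2 - 4 * x 3 + x 4 = 0}

lemma van_sec [IsAlgClosed K] [CharZero K] :
    vanishingIdeal K (sec (zeroLocus K (vanishingIdeal K (Y K)))) = vanishingIdeal K (H K) := by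
  rw [sec, van_zero]
  apply le_antisymm
  · intro f hf
    let g : ∀ a b c d : Fin 8, MvPolynomial (Fin 8) K := fun a b c d => (X a * X c - X b ^ 2) *
      ((X a * X d - X b * X c) ^ 2 - 4 * (X a * X c - X b ^ 2) * (X b * X d - X c ^ 2))
    have h1 : ∀ a : Fin 8 → K, eval a (aeval (lin X) f) = aeval (lin a) f := fun a => by
      rw [← aeval_eq_eval, comp_aeval_apply]
      congr 2
      funext i
      unfold lin
      split_ifs <;> simp
    have h2 : aeval (lin X) f * (g 0 1 2 3 * g 4 5 6 7) = 0 := MvPolynomial.funext fun a => by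
      rw [map_mul, map_zero, mul_eq_zero, or_iff_not_imp_right, map_mul, h1]
      intro h
      obtain ⟨h3, h4⟩ := mul_ne_zero_iff.1 h
      obtain ⟨s, t, s', t', h5⟩ := prony (a 0) (a 1) (a 2) (a 3) (by simpa [g] using h3)
      obtain ⟨u, v, u', v', h6⟩ := prony (a 4) (a 5) (a 6) (a 7) (by simpa [g] using h4)
      refine hf _ ⟨_, zeroLocus_vanishingIdeal_le _ ⟨![s, t, u, v], rfl⟩, _,
        zeroLocus_vanishingIdeal_le _ ⟨![s', t', u', v'], rfl⟩, funext fun i => ?_⟩
      simp only [Pi.add_apply, par, lin]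
      split_ifs
      exacts [h5 _, h6 _]
    have h3 := (mul_eq_zero.1 h2).resolve_right fun h => by
      have := congrArg (eval ![1, 0, 1, 0, 1, 0, 1, 0]) h
      simp [g] at this
    intro x hx
    have h4 : lin ![x 0, (x 1 - x 0 - (x 2 - 2 * x 1 + x 0) / 2 +
        (x 3 - 3 * x 2 + 3 * x 1 - x 0) / 3) / 3,
        (x 2 - 2 * x 1 + x 0 - (x 3 - 3 * x 2 + 3 * x 1 - x 0)) / 6,
        (x 3 - 3 * x 2 + 3 * x 1 - x 0) / 6, x 5 - 5 * (x 6 - x 5) + 15 * (x 7 - 2 * x 6 + x 5),
        (x 6 - x 5 - 11 * (x 7 - 2 * x 6 + x 5) / 2) / 3, (x 7 - 2 * x 6 + x 5) / 6, 0] = x := by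
      have hx' : x 0 - 4 * x 1 + 6 * x 2 - 4 * x 3 + x 4 = 0 := hx
      funext i
      fin_cases i <;> simp [lin] <;> first | ring1 | linear_combination -hx'
    rw [← h4, ← h1, h3, map_zero]
  · apply vanishingIdeal_anti_mono
    have h : ∀ x ∈ zeroLocus K (vanishingIdeal K (Y K)), x ∈ H K := fun x hx => by
      have := hx (X 0 - 4 * X 1 + 6 * X 2 - 4 * X 3 + X 4) (by
        rintro _ ⟨w, rfl⟩
        simp [par, map_ofNat]
        ring)
      simpa [map_ofNat, H] using this
    rintro _ ⟨x, hx, y, hy, rfl⟩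
    have h1 := h x hx
    have h2 := h y hy
    simp only [H, Set.mem_ofPred_eq, Pi.add_apply] at *
    linear_combination h1 + h2

lemma ell_mem : (X 0 - 4 * X 1 + 6 * X 2 - 4 * X 3 + X 4 : MvPolynomial (Fin 8) K) ∈
    vanishingIdeal K (H K) := fun x hx => by simpa [map_ofNat, H] using hx

lemma ell_ne : (X 0 - 4 * X 1 + 6 * X 2 - 4 * X 3 + X 4 : MvPolynomial (Fin 8) K) ≠ 0 := fun h => by
  simpa using congrArg (eval (Pi.single 0 1)) h

lemma indep_H [CharZero K] (E : Finset (Fin 8)) :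
    Indep (H K) E ↔ ¬ ({0, 1, 2, 3, 4} : Finset (Fin 8)) ⊆ E := by
  constructor
  · intro h hE
    have hX : ∀ e ∈ ({0, 1, 2, 3, 4} : Finset (Fin 8)), X e ∈ supported K (E : Set (Fin 8)) :=
      fun e he => X_mem_supported.2 (hE he)
    exact ell_ne (h _ ell_mem (add_mem (sub_mem (add_mem (sub_mem (hX _ (by simp))
      (mul_mem (ofNat_mem _ _) (hX _ (by simp)))) (mul_mem (ofNat_mem _ _) (hX _ (by simp))))
      (mul_mem (ofNat_mem _ _) (hX _ (by simp)))) (hX _ (by simp))))
  · intro h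
    obtain ⟨e, he, heE⟩ := Finset.not_subset.1 h
    refine indep_of_proj fun y => ⟨Function.update y e (y e - (y 0 - 4 * y 1 + 6 * y 2 - 4 * y 3 +
      y 4) / (![1, -4, 6, -4, 1, 1, 1, 1] : Fin 8 → K) e), ?_, fun i hi =>
        Function.update_of_ne (fun h : i = e => heE (h ▸ hi)) _ _⟩
    simp only [Finset.mem_insert, Finset.mem_singleton] at he
    rcases he with rfl | rfl | rfl | rfl | rfl <;> simp [H] <;> ring

theorem result (K : Type) [Field K] [IsAlgClosed K] [CharZero K] :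
    ∃ (N : ℕ) (V : Set (Fin N → K)), zeroLocus K (vanishingIdeal K V) = V ∧
      (vanishingIdeal K V).IsPrime ∧
      (∀ f ∈ vanishingIdeal K V, ∀ d, homogeneousComponent d f ∈ vanishingIdeal K V) ∧
      dim (sec V) < min (2 * dim V) N ∧
      (∀ E, Indep (sec V) E ↔ ∃ E₁ E₂, Indep V E₁ ∧ Indep V E₂ ∧ E = E₁ ∪ E₂) ∧
      (∀ e, ∃ E, Indep V E ∧ e ∈ E) ∧ ∀ e, ∃ B, Maximal (Indep V) B ∧ e ∉ B := by
  have hI : Indep (zeroLocus K (vanishingIdeal K (Y K))) = Small := by
    funext E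
    rw [← indep_Y (K := K), Indep, van_zero, Indep]
  refine ⟨8, zeroLocus K (vanishingIdeal K (Y K)), by rw [van_zero], ?_, ?_, ?_, fun E => ?_, ?_,
    ?_⟩
  · rw [van_zero, van_Y]
    exact RingHom.ker_isPrime _
  · rw [van_zero]
    exact homog
  · have h1 : 4 ≤ dim (zeroLocus K (vanishingIdeal K (Y K))) := by
      rw [dim, van_zero]
      exact four_le
    have h2 := ringKrullDim_quotient_succ_le_of_nonZeroDivisor
      (mem_nonZeroDivisors_of_ne_zero (ell_ne (K := K)))
    rw [MvPolynomial.ringKrullDim_of_isNoetherianRing, ringKrullDim_eq_zero_of_field] at h2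
    have h3 := ringKrullDim_le_of_surjective _ (Ideal.Quotient.factor_surjective
      ((Ideal.span_singleton_le_iff_mem _).2 (ell_mem (K := K))))
    have h4 : dim (sec (zeroLocus K (vanishingIdeal K (Y K)))) < 8 := by
      rw [dim, van_sec]
      refine h3.trans_lt (lt_of_not_ge fun h => ?_)
      have := (add_le_add_left h 1).trans h2
      simp at this
      exact absurd this (by decide)
    refine lt_min (h4.trans_le ?_) h4
    rw [two_mul]
    exact le_trans (by decide) (add_le_add h1 h1)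
  · rw [Indep, van_sec, ← Indep, indep_H, hI]
    constructor
    · have : ∀ E : Finset (Fin 8), ¬ ({0, 1, 2, 3, 4} : Finset (Fin 8)) ⊆ E →
          ∃ E₁ ∈ E.powerset, Small E₁ ∧ Small (E \ E₁) := by decide +kernel
      intro h
      obtain ⟨E₁, h1, h2, h3⟩ := this E h
      exact ⟨_, _, h2, h3, (Finset.union_sdiff_of_subset (Finset.mem_powerset.1 h1)).symm⟩
    · rintro ⟨E₁, E₂, h1, h2, rfl⟩ h
      have h3 := Finset.card_le_card (Finset.filter_subset_filter (·.val < 5) h)
      rw [Finset.filter_union] at h3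
      exact absurd (h3.trans ((Finset.card_union_le _ _).trans (add_le_add h1.1 h2.1)))
        (by decide)
  · rw [hI]
    exact fun e => ⟨{e}, by revert e; decide, by simp⟩
  · rw [hI]
    intro e
    refine ⟨if e = 0 ∨ e = 5 then {1, 2, 6, 7} else if e = 1 ∨ e = 6 then {0, 2, 5, 7}
      else {0, 1, 5, 6}, ?_⟩
    unfold Maximal
    revert e
    decide +kernel

end Pool.Agent.Results.MP_0cb83c_co.Counter
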